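import Mathlib

set_option autoImplicit false

namespace Pool.Agent.Results.MP_71be7b_lc.ContinuumMany

open Set

/-- the Euclidean plane -/
abbrev Plane : Type := ℝ × ℝ

/-- the axis `ℝ × {0}` -/
def axisX : Set Plane := {p | p.2 = 0}

/-- the axis `{0} × ℝ` -/
def axisY : Set Plane := {p | p.1 = 0}

/-- the projection of a plane set to the first axis -/
def pr1 (S : Set Plane) : Set Plane := {p | p.2 = 0 ∧ ∃ y : ℝ, (p.1, y) ∈ S}

/-- the projection of a plane set to the second axis -/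
def pr2 (S : Set Plane) : Set Plane := {p | p.1 = 0 ∧ ∃ x : ℝ, (x, p.2) ∈ S}

/-- the product of a subset of the first axis and a subset of the second axis -/
def tens (A B : Set Plane) : Set Plane := {p | (p.1, (0 : ℝ)) ∈ A ∧ ((0 : ℝ), p.2) ∈ B}

/-- projective algebras of plane sets -/
structure IsProjAlg (F : Set (Set Plane)) : Prop where
  empty_mem : ∅ ∈ F
  compl_mem : ∀ S ∈ F, Sᶜ ∈ F
  union_mem : ∀ S ∈ F, ∀ T ∈ F, S ∪ T ∈ F
  pr1_mem : ∀ S ∈ F, pr1 S ∈ F
  pr2_mem : ∀ S ∈ F, pr2 S ∈ F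
  tens_mem : ∀ A ∈ F, ∀ B ∈ F, A ⊆ axisX → B ⊆ axisY → tens A B ∈ F

/-- the projective algebra generated by a family of plane sets -/
def generated (G : Set (Set Plane)) : Set (Set Plane) := ⋂₀ {F | IsProjAlg F ∧ G ⊆ F}

/-- isomorphism: a bijection commuting with complement, union, both projections and the product -/
def Isomorphic (F G : Set (Set Plane)) : Prop :=
  ∃ φ : F ≃ G,
    (∀ S T : F, (T : Set Plane) = (S : Set Plane)ᶜ → (φ T : Set Plane) = (φ S : Set Plane)ᶜ) ∧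
    (∀ S T U : F, (U : Set Plane) = (S : Set Plane) ∪ (T : Set Plane) →
      (φ U : Set Plane) = (φ S : Set Plane) ∪ (φ T : Set Plane)) ∧
    (∀ S T : F, (T : Set Plane) = pr1 S → (φ T : Set Plane) = pr1 (φ S)) ∧
    (∀ S T : F, (T : Set Plane) = pr2 S → (φ T : Set Plane) = pr2 (φ S)) ∧
    (∀ A B C : F, (A : Set Plane) ⊆ axisX → (B : Set Plane) ⊆ axisY →
      (C : Set Plane) = tens A B →
      (φ A : Set Plane) ⊆ axisX ∧ (φ B : Set Plane) ⊆ axisY ∧
        (φ C : Set Plane) = tens (φ A) (φ B))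

theorem IsProjAlg.inter_mem {F : Set (Set Plane)} (hF : IsProjAlg F) {S T : Set Plane}
    (hS : S ∈ F) (hT : T ∈ F) : S ∩ T ∈ F := by
  have := hF.compl_mem _ (hF.union_mem _ (hF.compl_mem _ hS) _ (hF.compl_mem _ hT))
  rwa [compl_union, compl_compl, compl_compl] at this

theorem IsProjAlg.univ_mem {F : Set (Set Plane)} (hF : IsProjAlg F) : univ ∈ F := by
  have := hF.compl_mem _ hF.empty_mem
  rwa [compl_empty] at this

theorem pr1_univ : pr1 univ = axisX := by
  ext p; simp [pr1, axisX]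

theorem pr2_univ : pr2 univ = axisY := by
  ext p; simp [pr2, axisY]

theorem IsProjAlg.axisX_mem {F : Set (Set Plane)} (hF : IsProjAlg F) : axisX ∈ F := by
  rw [← pr1_univ]; exact hF.pr1_mem _ hF.univ_mem

theorem IsProjAlg.axisY_mem {F : Set (Set Plane)} (hF : IsProjAlg F) : axisY ∈ F := by
  rw [← pr2_univ]; exact hF.pr2_mem _ hF.univ_mem

theorem tens_restrict (A B : Set Plane) : tens A B = tens (A ∩ axisX) (B ∩ axisY) := by
  ext p; simp [tens, axisX, axisY]

theorem IsProjAlg.tens_mem' {F : Set (Set Plane)} (hF : IsProjAlg F) {A B : Set Plane}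
    (hA : A ∈ F) (hB : B ∈ F) : tens A B ∈ F := by
  rw [tens_restrict]
  exact hF.tens_mem _ (hF.inter_mem hA hF.axisX_mem) _ (hF.inter_mem hB hF.axisY_mem)
    inter_subset_right inter_subset_right

theorem isProjAlg_generated (G : Set (Set Plane)) : IsProjAlg (generated G) where
  empty_mem := by
    rintro F ⟨hF, -⟩; exact hF.empty_mem
  compl_mem := by
    rintro S hS F ⟨hF, hG⟩; exact hF.compl_mem _ (hS F ⟨hF, hG⟩)
  union_mem := by
    rintro S hS T hT F ⟨hF, hG⟩; exact hF.union_mem _ (hS F ⟨hF, hG⟩) _ (hT F ⟨hF, hG⟩)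
  pr1_mem := by
    rintro S hS F ⟨hF, hG⟩; exact hF.pr1_mem _ (hS F ⟨hF, hG⟩)
  pr2_mem := by
    rintro S hS F ⟨hF, hG⟩; exact hF.pr2_mem _ (hS F ⟨hF, hG⟩)
  tens_mem := by
    rintro A hA B hB h1 h2 F ⟨hF, hG⟩
    exact hF.tens_mem _ (hA F ⟨hF, hG⟩) _ (hB F ⟨hF, hG⟩) h1 h2

theorem subset_generated (G : Set (Set Plane)) : G ⊆ generated G := by
  rintro S hS F ⟨-, hG⟩; exact hG hS

theorem Isomorphic.refl (F : Set (Set Plane)) : Isomorphic F F := by
  refine ⟨Equiv.refl _, ?_, ?_, ?_, ?_, ?_⟩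
  · intro S T h; exact h
  · intro S T U h; exact h
  · intro S T h; exact h
  · intro S T h; exact h
  · intro A B C h1 h2 h3; exact ⟨h1, h2, h3⟩

theorem Isomorphic.trans {F G H : Set (Set Plane)} (h1 : Isomorphic F G) (h2 : Isomorphic G H) :
    Isomorphic F H := by
  obtain ⟨φ, a1, a2, a3, a4, a5⟩ := h1
  obtain ⟨ψ, b1, b2, b3, b4, b5⟩ := h2
  refine ⟨φ.trans ψ, ?_, ?_, ?_, ?_, ?_⟩
  · intro S T h; exact b1 _ _ (a1 _ _ h)
  · intro S T U h; exact b2 _ _ _ (a2 _ _ _ h)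
  · intro S T h; exact b3 _ _ (a3 _ _ h)
  · intro S T h; exact b4 _ _ (a4 _ _ h)
  · intro A B C h1 h2 h3
    obtain ⟨c1, c2, c3⟩ := a5 A B C h1 h2 h3
    exact b5 _ _ _ c1 c2 c3

section isoFacts

variable {F G : Set (Set Plane)} (hF : IsProjAlg F) (φ : F ≃ G)
  (a1 : ∀ S T : F, (T : Set Plane) = (S : Set Plane)ᶜ → (φ T : Set Plane) = (φ S : Set Plane)ᶜ)
  (a2 : ∀ S T U : F, (U : Set Plane) = (S : Set Plane) ∪ (T : Set Plane) →
      (φ U : Set Plane) = (φ S : Set Plane) ∪ (φ T : Set Plane))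
  (a3 : ∀ S T : F, (T : Set Plane) = pr1 S → (φ T : Set Plane) = pr1 (φ S))
  (a4 : ∀ S T : F, (T : Set Plane) = pr2 S → (φ T : Set Plane) = pr2 (φ S))
  (a5 : ∀ A B C : F, (A : Set Plane) ⊆ axisX → (B : Set Plane) ⊆ axisY →
      (C : Set Plane) = tens A B →
      (φ A : Set Plane) ⊆ axisX ∧ (φ B : Set Plane) ⊆ axisY ∧
        (φ C : Set Plane) = tens (φ A) (φ B))

include hF a1 a2 in
theorem iso_univ (U : F) (hU : (U : Set Plane) = univ) : (φ U : Set Plane) = univ := by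
  have h := a2 U ⟨(U : Set Plane)ᶜ, hF.compl_mem _ U.2⟩ U (by simp [hU])
  rw [h, a1 U ⟨(U : Set Plane)ᶜ, hF.compl_mem _ U.2⟩ rfl, union_compl_self]

include hF a1 a2 in
theorem iso_empty (U : F) (hU : (U : Set Plane) = ∅) : (φ U : Set Plane) = ∅ := by
  have h := a1 ⟨univ, hF.univ_mem⟩ U (by rw [hU]; simp)
  rw [h, iso_univ hF φ a1 a2 ⟨univ, hF.univ_mem⟩ rfl, compl_univ]

include hF a1 a2 in
theorem iso_inter (S T U : F) (hU : (U : Set Plane) = (S : Set Plane) ∩ (T : Set Plane)) :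
    (φ U : Set Plane) = (φ S : Set Plane) ∩ (φ T : Set Plane) := by
  have hW : (S : Set Plane)ᶜ ∪ (T : Set Plane)ᶜ ∈ F :=
    hF.union_mem _ (hF.compl_mem _ S.2) _ (hF.compl_mem _ T.2)
  have h1 := a1 ⟨_, hW⟩ U (by rw [hU]; simp [compl_union])
  have h2 := a2 ⟨_, hF.compl_mem _ S.2⟩ ⟨_, hF.compl_mem _ T.2⟩ ⟨_, hW⟩ rfl
  rw [h1, h2, a1 S ⟨_, hF.compl_mem _ S.2⟩ rfl, a1 T ⟨_, hF.compl_mem _ T.2⟩ rfl]
  simp [compl_union]

include hF a1 a2 a3 in
theorem iso_axisX (U : F) (hU : (U : Set Plane) = axisX) : (φ U : Set Plane) = axisX := by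
  rw [a3 ⟨univ, hF.univ_mem⟩ U (by rw [hU, pr1_univ]), iso_univ hF φ a1 a2 _ rfl, pr1_univ]

include hF a1 a2 a4 in
theorem iso_axisY (U : F) (hU : (U : Set Plane) = axisY) : (φ U : Set Plane) = axisY := by
  rw [a4 ⟨univ, hF.univ_mem⟩ U (by rw [hU, pr2_univ]), iso_univ hF φ a1 a2 _ rfl, pr2_univ]

include hF a1 a2 a3 a4 a5 in
theorem iso_tens (A B C : F) (hC : (C : Set Plane) = tens A B) :
    (φ C : Set Plane) = tens (φ A) (φ B) := by
  have hA : (A : Set Plane) ∩ axisX ∈ F := hF.inter_mem A.2 hF.axisX_mem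
  have hB : (B : Set Plane) ∩ axisY ∈ F := hF.inter_mem B.2 hF.axisY_mem
  have h := (a5 ⟨_, hA⟩ ⟨_, hB⟩ C inter_subset_right inter_subset_right
    (by rw [hC, tens_restrict])).2.2
  rw [h, iso_inter hF φ a1 a2 A ⟨axisX, hF.axisX_mem⟩ ⟨_, hA⟩ rfl,
    iso_inter hF φ a1 a2 B ⟨axisY, hF.axisY_mem⟩ ⟨_, hB⟩ rfl,
    iso_axisX hF φ a1 a2 a3 ⟨axisX, hF.axisX_mem⟩ rfl,
    iso_axisY hF φ a1 a2 a4 ⟨axisY, hF.axisY_mem⟩ rfl, ← tens_restrict]

end isoFacts

theorem Isomorphic.symm {F G : Set (Set Plane)} (hF : IsProjAlg F)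
    (h : Isomorphic F G) : Isomorphic G F := by
  obtain ⟨φ, a1, a2, a3, a4, a5⟩ := h
  have key : ∀ (T : G) (S : Set Plane) (hS : S ∈ F), (φ ⟨S, hS⟩ : Set Plane) = T →
      (φ.symm T : Set Plane) = S := by
    intro T S hS h
    have : φ ⟨S, hS⟩ = T := Subtype.ext h
    rw [← this, Equiv.symm_apply_apply]
  refine ⟨φ.symm, ?_, ?_, ?_, ?_, ?_⟩
  · intro S T h
    apply key _ _ (hF.compl_mem _ (φ.symm S).2)
    rw [a1 (φ.symm S) _ rfl, Equiv.apply_symm_apply, h]
  · intro S T U h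
    apply key _ _ (hF.union_mem _ (φ.symm S).2 _ (φ.symm T).2)
    rw [a2 (φ.symm S) (φ.symm T) _ rfl, Equiv.apply_symm_apply, Equiv.apply_symm_apply, h]
  · intro S T h
    apply key _ _ (hF.pr1_mem _ (φ.symm S).2)
    rw [a3 (φ.symm S) _ rfl, Equiv.apply_symm_apply, h]
  · intro S T h
    apply key _ _ (hF.pr2_mem _ (φ.symm S).2)
    rw [a4 (φ.symm S) _ rfl, Equiv.apply_symm_apply, h]
  · intro A B C h1 h2 h3
    refine ⟨?_, ?_, ?_⟩
    · have hA : (φ.symm A : Set Plane) = (φ.symm A : Set Plane) ∩ axisX := by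
        apply key _ _ (hF.inter_mem (φ.symm A).2 hF.axisX_mem)
        rw [iso_inter hF φ a1 a2 (φ.symm A) ⟨axisX, hF.axisX_mem⟩ _ rfl,
          Equiv.apply_symm_apply, iso_axisX hF φ a1 a2 a3 ⟨axisX, hF.axisX_mem⟩ rfl]
        exact inter_eq_self_of_subset_left h1
      rw [hA]; exact inter_subset_right
    · have hB : (φ.symm B : Set Plane) = (φ.symm B : Set Plane) ∩ axisY := by
        apply key _ _ (hF.inter_mem (φ.symm B).2 hF.axisY_mem)
        rw [iso_inter hF φ a1 a2 (φ.symm B) ⟨axisY, hF.axisY_mem⟩ _ rfl,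
          Equiv.apply_symm_apply, iso_axisY hF φ a1 a2 a4 ⟨axisY, hF.axisY_mem⟩ rfl]
        exact inter_eq_self_of_subset_left h2
      rw [hB]; exact inter_subset_right
    · apply key _ _ (hF.tens_mem' (φ.symm A).2 (φ.symm B).2)
      rw [iso_tens hF φ a1 a2 a3 a4 a5 (φ.symm A) (φ.symm B) _ rfl,
        Equiv.apply_symm_apply, Equiv.apply_symm_apply, h3]

/-- the type of projective algebras of plane sets -/
def ProjAlg : Type := {F : Set (Set Plane) // IsProjAlg F}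

/-- isomorphism as an equivalence relation on projective algebras -/
def isoSetoid : Setoid ProjAlg where
  r F G := Isomorphic F.1 G.1
  iseqv :=
    { refl := fun F => Isomorphic.refl F.1
      symm := fun {F _} h => h.symm F.2
      trans := fun h1 h2 => h1.trans h2 }

/-- the projective algebras generated by `k` subsets of the plane -/
def genBy (k : ℕ) : Set ProjAlg := {F | ∃ g : Fin k → Set Plane, F.1 = generated (range g)}

/-- the projective algebras generated by `k` distinct subsets of the plane -/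
def genByDistinct (k : ℕ) : Set ProjAlg :=
  {F | ∃ g : Fin k → Set Plane, Function.Injective g ∧ F.1 = generated (range g)}

/-- the projective algebras generated by `k` but by no fewer subsets of the plane -/
def genByExactly (k : ℕ) : Set ProjAlg := {F | F ∈ genBy k ∧ ∀ j < k, F ∉ genBy j}

/-- the number of isomorphism classes of projective algebras with a member in `C` -/
noncomputable def numIsoClasses (C : Set ProjAlg) : Cardinal :=
  Cardinal.mk ↥(Quotient.mk isoSetoid '' C)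

/-! ### Terms -/

/-- terms -/
inductive Tm (k : ℕ) : Type
  | gen : Fin k → Tm k
  | emp : Tm k
  | cpl : Tm k → Tm k
  | uni : Tm k → Tm k → Tm k
  | p1 : Tm k → Tm k
  | p2 : Tm k → Tm k
  | tns : Tm k → Tm k → Tm k
  deriving Encodable

/-- evaluation of terms -/
def eval {k : ℕ} (g : Fin k → Set Plane) : Tm k → Set Plane
  | Tm.gen i => g i
  | Tm.emp => ∅
  | Tm.cpl t => (eval g t)ᶜ
  | Tm.uni s t => eval g s ∪ eval g t
  | Tm.p1 t => pr1 (eval g t)
  | Tm.p2 t => pr2 (eval g t)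
  | Tm.tns s t => tens (eval g s) (eval g t)

theorem isProjAlg_range_eval {k : ℕ} (g : Fin k → Set Plane) : IsProjAlg (range (eval g)) where
  empty_mem := ⟨Tm.emp, rfl⟩
  compl_mem := by rintro _ ⟨s, rfl⟩; exact ⟨Tm.cpl s, rfl⟩
  union_mem := by rintro _ ⟨s, rfl⟩ _ ⟨t, rfl⟩; exact ⟨Tm.uni s t, rfl⟩
  pr1_mem := by rintro _ ⟨s, rfl⟩; exact ⟨Tm.p1 s, rfl⟩
  pr2_mem := by rintro _ ⟨s, rfl⟩; exact ⟨Tm.p2 s, rfl⟩
  tens_mem := by rintro _ ⟨s, rfl⟩ _ ⟨t, rfl⟩ _ _; exact ⟨Tm.tns s t, rfl⟩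

theorem eval_mem {k : ℕ} (g : Fin k → Set Plane) {F : Set (Set Plane)} (hF : IsProjAlg F)
    (hg : ∀ i, g i ∈ F) (t : Tm k) : eval g t ∈ F := by
  induction t with
  | gen i => exact hg i
  | emp => exact hF.empty_mem
  | cpl t ih => exact hF.compl_mem _ ih
  | uni s t ih1 ih2 => exact hF.union_mem _ ih1 _ ih2
  | p1 t ih => exact hF.pr1_mem _ ih
  | p2 t ih => exact hF.pr2_mem _ ih
  | tns s t ih1 ih2 => exact hF.tens_mem' ih1 ih2

theorem generated_eq {k : ℕ} (g : Fin k → Set Plane) : generated (range g) = range (eval g) := by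
  apply Subset.antisymm
  · intro S hS
    apply hS
    refine ⟨isProjAlg_range_eval g, ?_⟩
    rintro _ ⟨i, rfl⟩
    exact ⟨Tm.gen i, rfl⟩
  · rintro _ ⟨t, rfl⟩
    exact eval_mem g (isProjAlg_generated _) (fun i => subset_generated _ (mem_range_self i)) t

/-- an isomorphism commutes with evaluation of terms -/
theorem iso_eval {k : ℕ} {F G : Set (Set Plane)} (hF : IsProjAlg F) (φ : F ≃ G)
    (a1 : ∀ S T : F, (T : Set Plane) = (S : Set Plane)ᶜ → (φ T : Set Plane) = (φ S : Set Plane)ᶜ)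
    (a2 : ∀ S T U : F, (U : Set Plane) = (S : Set Plane) ∪ (T : Set Plane) →
      (φ U : Set Plane) = (φ S : Set Plane) ∪ (φ T : Set Plane))
    (a3 : ∀ S T : F, (T : Set Plane) = pr1 S → (φ T : Set Plane) = pr1 (φ S))
    (a4 : ∀ S T : F, (T : Set Plane) = pr2 S → (φ T : Set Plane) = pr2 (φ S))
    (a5 : ∀ A B C : F, (A : Set Plane) ⊆ axisX → (B : Set Plane) ⊆ axisY →
      (C : Set Plane) = tens A B →
      (φ A : Set Plane) ⊆ axisX ∧ (φ B : Set Plane) ⊆ axisY ∧
        (φ C : Set Plane) = tens (φ A) (φ B))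
    (g : Fin k → Set Plane) (hg : ∀ i, g i ∈ F) (t : Tm k) :
    (φ ⟨eval g t, eval_mem g hF hg t⟩ : Set Plane) = eval (fun i => (φ ⟨g i, hg i⟩ : Set Plane)) t := by
  induction t with
  | gen i => rfl
  | emp => exact iso_empty hF φ a1 a2 _ rfl
  | cpl t ih =>
    rw [a1 ⟨eval g t, eval_mem g hF hg t⟩ _ rfl, ih]; rfl
  | uni s t ih1 ih2 =>
    rw [a2 ⟨eval g s, eval_mem g hF hg s⟩ ⟨eval g t, eval_mem g hF hg t⟩ _ rfl, ih1, ih2]; rfl
  | p1 t ih => rw [a3 ⟨eval g t, eval_mem g hF hg t⟩ _ rfl, ih]; rfl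
  | p2 t ih => rw [a4 ⟨eval g t, eval_mem g hF hg t⟩ _ rfl, ih]; rfl
  | tns s t ih1 ih2 =>
    rw [iso_tens hF φ a1 a2 a3 a4 a5 ⟨eval g s, eval_mem g hF hg s⟩
      ⟨eval g t, eval_mem g hF hg t⟩ _ rfl, ih1, ih2]; rfl

/-- equal kernels give isomorphic algebras -/
theorem iso_of_kernel {k : ℕ} (g h : Fin k → Set Plane)
    (H : ∀ s t : Tm k, eval g s = eval g t ↔ eval h s = eval h t) :
    Isomorphic (generated (range g)) (generated (range h)) := by
  rw [generated_eq, generated_eq]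
  let f : range (eval g) → range (eval h) := fun S => ⟨eval h S.2.choose, S.2.choose, rfl⟩
  let f' : range (eval h) → range (eval g) := fun S => ⟨eval g S.2.choose, S.2.choose, rfl⟩
  have hf : ∀ (t : Tm k) (S : range (eval g)), (S : Set Plane) = eval g t →
      (f S : Set Plane) = eval h t := by
    intro t S hS
    apply (H _ _).1
    rw [S.2.choose_spec, hS]
  have hf' : ∀ (t : Tm k) (S : range (eval h)), (S : Set Plane) = eval h t →
      (f' S : Set Plane) = eval g t := by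
    intro t S hS
    apply (H _ _).2
    rw [S.2.choose_spec, hS]
  let φ : range (eval g) ≃ range (eval h) :=
    { toFun := f
      invFun := f'
      left_inv := by
        rintro ⟨_, t, rfl⟩
        apply Subtype.ext
        exact hf' t _ (hf t _ rfl)
      right_inv := by
        rintro ⟨_, t, rfl⟩
        apply Subtype.ext
        exact hf t _ (hf' t _ rfl) }
  refine ⟨φ, ?_, ?_, ?_, ?_, ?_⟩
  · rintro ⟨_, s, rfl⟩ T hT
    change (f T : Set Plane) = (f _ : Set Plane)ᶜ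
    rw [hf (Tm.cpl s) T hT, hf s _ rfl]; rfl
  · rintro ⟨_, s, rfl⟩ ⟨_, t, rfl⟩ U hU
    change (f U : Set Plane) = (f _ : Set Plane) ∪ (f _ : Set Plane)
    rw [hf (Tm.uni s t) U hU, hf s _ rfl, hf t _ rfl]; rfl
  · rintro ⟨_, s, rfl⟩ T hT
    change (f T : Set Plane) = pr1 (f _ : Set Plane)
    rw [hf (Tm.p1 s) T hT, hf s _ rfl]; rfl
  · rintro ⟨_, s, rfl⟩ T hT
    change (f T : Set Plane) = pr2 (f _ : Set Plane)
    rw [hf (Tm.p2 s) T hT, hf s _ rfl]; rfl
  · rintro ⟨_, s, rfl⟩ ⟨_, t, rfl⟩ U h1 h2 hU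
    change eval g s ⊆ axisX at h1
    change eval g t ⊆ axisY at h2
    change (f _ : Set Plane) ⊆ axisX ∧ (f _ : Set Plane) ⊆ axisY ∧
      (f U : Set Plane) = tens (f _ : Set Plane) (f _ : Set Plane)
    refine ⟨?_, ?_, ?_⟩
    · rw [hf s _ rfl]
      have e1 : eval g (Tm.cpl (Tm.uni (Tm.cpl s) (Tm.cpl (Tm.p1 (Tm.cpl Tm.emp))))) = eval g s := by
        simp only [eval, compl_empty, pr1_univ, compl_union, compl_compl]
        exact inter_eq_self_of_subset_left h1
      have e2 := (H _ _).1 e1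
      simp only [eval, compl_empty, pr1_univ, compl_union, compl_compl] at e2
      rw [← e2]; exact inter_subset_right
    · rw [hf t _ rfl]
      have e1 : eval g (Tm.cpl (Tm.uni (Tm.cpl t) (Tm.cpl (Tm.p2 (Tm.cpl Tm.emp))))) = eval g t := by
        simp only [eval, compl_empty, pr2_univ, compl_union, compl_compl]
        exact inter_eq_self_of_subset_left h2
      have e2 := (H _ _).1 e1
      simp only [eval, compl_empty, pr2_univ, compl_union, compl_compl] at e2
      rw [← e2]; exact inter_subset_right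
    · rw [hf (Tm.tns s t) U hU, hf s _ rfl, hf t _ rfl]; rfl

/-! ### Upper bound -/

theorem upper (k : ℕ) : numIsoClasses (genBy k) ≤ Cardinal.continuum := by
  have hcard : Cardinal.mk (Set (Tm k × Tm k)) ≤ Cardinal.continuum := by
    rw [Cardinal.mk_set, ← Cardinal.two_power_aleph0]
    exact Cardinal.power_le_power_left two_ne_zero Cardinal.mk_le_aleph0
  refine le_trans ?_ hcard
  have hch : ∀ q : ↥(Quotient.mk isoSetoid '' genBy k), ∃ (F : ProjAlg) (g : Fin k → Set Plane),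
      F.1 = generated (range g) ∧ Quotient.mk isoSetoid F = q.1 := by
    rintro ⟨q, F, ⟨g, hg⟩, rfl⟩
    exact ⟨F, g, hg, rfl⟩
  choose F g hg hq using hch
  apply Cardinal.mk_le_of_injective
    (f := fun q : ↥(Quotient.mk isoSetoid '' genBy k) =>
      {p : Tm k × Tm k | eval (g q) p.1 = eval (g q) p.2})
  intro q q' hqq
  apply Subtype.ext
  rw [← hq q, ← hq q']
  apply Quotient.sound
  change Isomorphic (F q).1 (F q').1
  rw [hg q, hg q']
  apply iso_of_kernel
  intro s t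
  have := Set.ext_iff.1 hqq (s, t)
  exact this

/-! ### The coding sets -/

/-- the code of a set of natural numbers: a path with a leaf at each position in `Z` -/
def Code (Z : Set ℕ) (p : Plane) : Prop :=
  ∃ n : ℕ, p.2 = n ∧ (p.1 = n ∨ p.1 = n + 1 ∨ (p.1 = -(n + 1) ∧ n ∈ Z))

/-- non-integers -/
def Gn (x : ℝ) : Prop := ¬ ∃ m : ℤ, x = m

/-- the generators -/
def gens {k : ℕ} (c : ℤ → (Fin k → Bool)) (Z : Set ℕ) (i : Fin k) : Set Plane :=
  {p | (i.val = 0 ∧ Code Z p) ∨ (Gn p.1 ∧ Gn p.2 ∧ c ⌊p.1 + p.2⌋ i = true)}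

def iT {k : ℕ} (s t : Tm k) : Tm k := Tm.cpl (Tm.uni (Tm.cpl s) (Tm.cpl t))

def dT {k : ℕ} (s t : Tm k) : Tm k := iT s (Tm.cpl t)

def xT {k : ℕ} : Tm k := Tm.p1 (Tm.cpl Tm.emp)

def yT {k : ℕ} : Tm k := Tm.p2 (Tm.cpl Tm.emp)

theorem eval_iT {k : ℕ} (g : Fin k → Set Plane) (s t : Tm k) :
    eval g (iT s t) = eval g s ∩ eval g t := by
  simp [iT, eval, compl_union]

theorem eval_dT {k : ℕ} (g : Fin k → Set Plane) (s t : Tm k) :
    eval g (dT s t) = eval g s ∩ (eval g t)ᶜ := by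
  rw [dT, eval_iT]; rfl

theorem eval_xT {k : ℕ} (g : Fin k → Set Plane) : eval g (xT : Tm k) = axisX := by
  simp [xT, eval, pr1_univ]

theorem eval_yT {k : ℕ} (g : Fin k → Set Plane) : eval g (yT : Tm k) = axisY := by
  simp [yT, eval, pr2_univ]

/-- from a subset of the first axis to its set of neighbours in the second -/
def stepXY {k : ℕ} (i : Fin k) (t : Tm k) : Tm k := Tm.p2 (iT (Tm.gen i) (Tm.tns t yT))

/-- from a subset of the second axis to its set of neighbours in the first -/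
def stepYX {k : ℕ} (i : Fin k) (t : Tm k) : Tm k := Tm.p1 (iT (Tm.gen i) (Tm.tns xT t))

def PT {k : ℕ} (i : Fin k) : ℕ → Tm k
  | 0 => iT xT yT
  | n + 1 => stepYX i (stepXY i (PT i n))

def QT {k : ℕ} (i : Fin k) (n : ℕ) : Tm k := stepXY i (PT i n)

def RT {k : ℕ} (i : Fin k) (n : ℕ) : Tm k :=
  dT (dT (PT i (n + 1)) (PT i n)) (stepYX i (dT yT (QT i n)))

theorem mem_stepXY {k : ℕ} (g : Fin k → Set Plane) (i : Fin k) (t : Tm k) (p : Plane) :
    p ∈ eval g (stepXY i t) ↔ p.1 = 0 ∧ ∃ x : ℝ, (x, p.2) ∈ g i ∧ (x, (0 : ℝ)) ∈ eval g t := by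
  unfold stepXY
  change p ∈ pr2 (eval g (iT (Tm.gen i) (Tm.tns t yT))) ↔ _
  rw [eval_iT]
  simp only [pr2, eval, eval_yT, tens, axisY, Set.mem_ofPred_eq, Set.mem_inter_iff, and_true]

theorem mem_stepYX {k : ℕ} (g : Fin k → Set Plane) (i : Fin k) (t : Tm k) (p : Plane) :
    p ∈ eval g (stepYX i t) ↔ p.2 = 0 ∧ ∃ y : ℝ, (p.1, y) ∈ g i ∧ ((0 : ℝ), y) ∈ eval g t := by
  unfold stepYX
  change p ∈ pr1 (eval g (iT (Tm.gen i) (Tm.tns xT t))) ↔ _
  rw [eval_iT]
  simp only [pr1, eval, eval_xT, tens, axisX, Set.mem_ofPred_eq, Set.mem_inter_iff, true_and]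

section coding

variable {k : ℕ} (c : ℤ → (Fin k → Bool)) (Z : Set ℕ) (i : Fin k) (hi : i.val = 0)

include hi in
theorem mem_gens_left {p : Plane} (m : ℤ) (hp : p.1 = m) : p ∈ gens c Z i ↔ Code Z p := by
  constructor
  · rintro (⟨-, h⟩ | ⟨h, -, -⟩)
    · exact h
    · exact absurd ⟨m, hp⟩ h
  · intro h; exact Or.inl ⟨hi, h⟩

include hi in
theorem mem_gens_right {p : Plane} (m : ℤ) (hp : p.2 = m) : p ∈ gens c Z i ↔ Code Z p := by
  constructor
  · rintro (⟨-, h⟩ | ⟨-, h, -⟩)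
    · exact h
    · exact absurd ⟨m, hp⟩ h
  · intro h; exact Or.inl ⟨hi, h⟩

include hi in
theorem eval_P_Q (n : ℕ) :
    (∀ p : Plane, p ∈ eval (gens c Z) (PT i n) ↔
      p.2 = 0 ∧ ((∃ m : ℕ, m ≤ n ∧ p.1 = m) ∨ ∃ m : ℕ, m < n ∧ m ∈ Z ∧ p.1 = -(m + 1))) ∧
    (∀ p : Plane, p ∈ eval (gens c Z) (QT i n) ↔ p.1 = 0 ∧ ∃ m : ℕ, m ≤ n ∧ p.2 = m) := by
  have step1 : ∀ n : ℕ, (∀ p : Plane, p ∈ eval (gens c Z) (PT i n) ↔
      p.2 = 0 ∧ ((∃ m : ℕ, m ≤ n ∧ p.1 = m) ∨ ∃ m : ℕ, m < n ∧ m ∈ Z ∧ p.1 = -(m + 1))) →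
      (∀ p : Plane, p ∈ eval (gens c Z) (QT i n) ↔ p.1 = 0 ∧ ∃ m : ℕ, m ≤ n ∧ p.2 = m) := by
    intro n hP p
    rw [QT, mem_stepXY]
    constructor
    · rintro ⟨h1, x, h2, h3⟩
      refine ⟨h1, ?_⟩
      rw [hP] at h3
      obtain ⟨-, h3⟩ := h3
      rcases h3 with ⟨m, hm, hx⟩ | ⟨m, hm, hmZ, hx⟩
      · simp only at hx
        rw [mem_gens_left c Z i hi (m : ℤ) (by simpa using hx)] at h2
        obtain ⟨j, hj, h | h | ⟨h, -⟩⟩ := h2
        · simp only at hj h
          refine ⟨j, ?_, hj⟩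
          have : (m : ℝ) = j := by linarith
          have : m = j := by exact_mod_cast this
          omega
        · simp only at hj h
          refine ⟨j, ?_, hj⟩
          have : (m : ℝ) = j + 1 := by linarith
          have : m = j + 1 := by exact_mod_cast this
          omega
        · simp only at hj h
          exfalso
          have h4 : (m : ℝ) + (j : ℝ) + 1 = 0 := by linarith
          have : (0 : ℝ) ≤ m := Nat.cast_nonneg m
          have : (0 : ℝ) ≤ j := Nat.cast_nonneg j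
          linarith
      · simp only at hx
        rw [mem_gens_left c Z i hi (-((m : ℤ) + 1)) (by push_cast; exact hx)] at h2
        obtain ⟨j, hj, h | h | ⟨h, -⟩⟩ := h2
        · simp only at hj h
          exfalso
          have : (0 : ℝ) ≤ m := Nat.cast_nonneg m
          have : (0 : ℝ) ≤ j := Nat.cast_nonneg j
          linarith
        · simp only at hj h
          exfalso
          have : (0 : ℝ) ≤ m := Nat.cast_nonneg m
          have : (0 : ℝ) ≤ j := Nat.cast_nonneg j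
          linarith
        · simp only at hj h
          refine ⟨j, ?_, hj⟩
          have : (m : ℝ) = j := by linarith
          have : m = j := by exact_mod_cast this
          omega
    · rintro ⟨h1, m, hm, h2⟩
      refine ⟨h1, m, ?_, ?_⟩
      · rw [mem_gens_left c Z i hi (m : ℤ) (by simp)]
        exact ⟨m, h2, Or.inl rfl⟩
      · rw [hP]
        exact ⟨rfl, Or.inl ⟨m, hm, rfl⟩⟩
  have hP : ∀ n : ℕ, (∀ p : Plane, p ∈ eval (gens c Z) (PT i n) ↔
      p.2 = 0 ∧ ((∃ m : ℕ, m ≤ n ∧ p.1 = m) ∨ ∃ m : ℕ, m < n ∧ m ∈ Z ∧ p.1 = -(m + 1))) := by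
    intro n
    induction n with
    | zero =>
      intro p
      rw [PT, eval_iT, eval_xT, eval_yT]
      constructor
      · rintro ⟨h1, h2⟩
        refine ⟨h1, Or.inl ⟨0, le_refl _, ?_⟩⟩
        simpa [axisY] using h2
      · rintro ⟨h1, ⟨m, hm, h2⟩ | ⟨m, hm, -⟩⟩
        · refine ⟨h1, ?_⟩
          have : m = 0 := by omega
          subst this
          simpa [axisY] using h2
        · omega
    | succ n ih =>
      intro p
      have hQ := step1 n ih
      rw [QT] at hQ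
      rw [PT, mem_stepYX]
      constructor
      · rintro ⟨h1, y, h2, h3⟩
        refine ⟨h1, ?_⟩
        rw [hQ] at h3
        obtain ⟨-, m, hm, hy⟩ := h3
        simp only at hy
        rw [mem_gens_right c Z i hi (m : ℤ) (by simpa using hy)] at h2
        obtain ⟨j, hj, h⟩ := h2
        simp only at hj h
        have hmj : (m : ℝ) = j := by linarith
        have hmj : m = j := by exact_mod_cast hmj
        subst hmj
        rcases h with h | h | ⟨h, hZ⟩
        · exact Or.inl ⟨m, by omega, h⟩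
        · exact Or.inl ⟨m + 1, by omega, by push_cast; exact h⟩
        · exact Or.inr ⟨m, by omega, hZ, h⟩
      · rintro ⟨h1, ⟨m, hm, h2⟩ | ⟨m, hm, hZ, h2⟩⟩
        · refine ⟨h1, ?_⟩
          rcases Nat.lt_or_ge n m with h | h
          · have hmn : m = n + 1 := by omega
            refine ⟨n, ?_, ?_⟩
            · rw [mem_gens_right c Z i hi (n : ℤ) (by simp)]
              exact ⟨n, rfl, Or.inr (Or.inl (by simp only; rw [h2, hmn]; push_cast; ring))⟩
            · rw [hQ]; exact ⟨rfl, n, le_refl _, rfl⟩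
          · refine ⟨m, ?_, ?_⟩
            · rw [mem_gens_right c Z i hi (m : ℤ) (by simp)]
              exact ⟨m, rfl, Or.inl h2⟩
            · rw [hQ]; exact ⟨rfl, m, h, rfl⟩
        · refine ⟨h1, m, ?_, ?_⟩
          · rw [mem_gens_right c Z i hi (m : ℤ) (by simp)]
            exact ⟨m, rfl, Or.inr (Or.inr ⟨h2, hZ⟩)⟩
          · rw [hQ]; exact ⟨rfl, m, by omega, rfl⟩
  exact ⟨hP n, step1 n (hP n)⟩

include hi in
theorem eval_RT (n : ℕ) : (eval (gens c Z) (RT i n)).Nonempty ↔ n ∈ Z := by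
  have hP := fun n => (eval_P_Q c Z i hi n).1
  have hQ := fun n => (eval_P_Q c Z i hi n).2
  rw [RT, eval_dT, eval_dT]
  constructor
  · rintro ⟨p, ⟨h1, h2⟩, h3⟩
    rw [hP] at h1
    rw [Set.mem_compl_iff, hP] at h2
    rw [Set.mem_compl_iff, mem_stepYX] at h3
    obtain ⟨h0, h1⟩ := h1
    rcases h1 with ⟨m, hm, hx⟩ | ⟨m, hm, hmZ, hx⟩
    · exfalso
      have hmn : m = n + 1 := by
        by_contra hne
        exact h2 ⟨h0, Or.inl ⟨m, by omega, hx⟩⟩
      apply h3
      refine ⟨h0, (m : ℝ), ?_, ?_⟩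
      · rw [mem_gens_left c Z i hi (m : ℤ) (by simpa using hx)]
        exact ⟨m, rfl, Or.inl hx⟩
      · rw [eval_dT, eval_yT]
        refine ⟨rfl, ?_⟩
        rw [Set.mem_compl_iff, hQ]
        rintro ⟨-, j, hj, h⟩
        simp only at h
        have : m = j := by exact_mod_cast h
        omega
    · have hmn : m = n := by
        by_contra hne
        exact h2 ⟨h0, Or.inr ⟨m, by omega, hmZ, hx⟩⟩
      rwa [← hmn]
  · intro hZ
    refine ⟨((-(n + 1) : ℝ), (0 : ℝ)), ⟨?_, ?_⟩, ?_⟩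
    · rw [hP]
      exact ⟨rfl, Or.inr ⟨n, by omega, hZ, rfl⟩⟩
    · rw [Set.mem_compl_iff, hP]
      rintro ⟨-, ⟨m, hm, hx⟩ | ⟨m, hm, hmZ, hx⟩⟩
      · simp only at hx
        have : (0 : ℝ) ≤ m := Nat.cast_nonneg m
        have : (0 : ℝ) ≤ n := Nat.cast_nonneg n
        linarith
      · simp only at hx
        have : (m : ℝ) = n := by linarith
        have : m = n := by exact_mod_cast this
        omega
    · rw [Set.mem_compl_iff, mem_stepYX]
      rintro ⟨-, y, h1, h2⟩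
      rw [eval_dT, eval_yT] at h2
      obtain ⟨-, h2⟩ := h2
      rw [Set.mem_compl_iff, hQ] at h2
      rw [mem_gens_left c Z i hi (-((n : ℤ) + 1)) (by push_cast; rfl)] at h1
      obtain ⟨j, hj, h⟩ := h1
      simp only at hj h
      have hn0 : (0 : ℝ) ≤ n := Nat.cast_nonneg n
      have hj0 : (0 : ℝ) ≤ j := Nat.cast_nonneg j
      rcases h with h | h | ⟨h, -⟩
      · linarith
      · linarith
      · have : (n : ℝ) = j := by linarith
        have : n = j := by exact_mod_cast this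
        apply h2
        exact ⟨rfl, j, by omega, hj⟩

end coding

/-! ### The invariant -/

/-- plane sets that are invariant with respect to the coloring `h ⌊x + y⌋` of pairs of
non-integers and homogeneous on integer lines -/
def Inv {K : Type} (h : ℤ → K) : Set (Set Plane) :=
  {S | (∀ x y x' y' : ℝ, Gn x → Gn y → Gn x' → Gn y' → h ⌊x + y⌋ = h ⌊x' + y'⌋ →
        (x, y) ∈ S → (x', y') ∈ S) ∧
    (∀ (x x' : ℝ) (n : ℤ), Gn x → Gn x' → (x, (n : ℝ)) ∈ S → (x', (n : ℝ)) ∈ S) ∧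
    (∀ (y y' : ℝ) (n : ℤ), Gn y → Gn y' → ((n : ℝ), y) ∈ S → ((n : ℝ), y') ∈ S)}

theorem gn_ne_zero {x : ℝ} (hx : Gn x) : x ≠ 0 := by
  rintro rfl
  exact hx ⟨0, by simp⟩

theorem exists_partner {x : ℝ} (m : ℤ) : ∃ y : ℝ, Gn y ∧ ⌊x + y⌋ = m := by
  by_cases h : Gn ((m : ℝ) + 1 / 2 - x)
  · refine ⟨_, h, ?_⟩
    rw [Int.floor_eq_iff]
    constructor <;> linarith
  · unfold Gn at h
    push Not at h
    obtain ⟨j, hj⟩ := h
    refine ⟨(m : ℝ) + 1 / 4 - x, ?_, ?_⟩
    · rintro ⟨l, hl⟩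
      have h1 : (4 : ℝ) * (j - l) = 1 := by rw [← hj, ← hl]; ring
      have h2 : (4 : ℤ) * (j - l) = 1 := by exact_mod_cast h1
      omega
    · rw [Int.floor_eq_iff]
      constructor <;> linarith

theorem isProjAlg_Inv {K : Type} (h : ℤ → K) : IsProjAlg (Inv h) where
  empty_mem := ⟨fun _ _ _ _ _ _ _ _ _ hh => hh, fun _ _ _ _ _ hh => hh, fun _ _ _ _ _ hh => hh⟩
  compl_mem := by
    rintro S ⟨h1, h2, h3⟩
    refine ⟨?_, ?_, ?_⟩
    · intro x y x' y' gx gy gx' gy' e hS hS'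
      exact hS (h1 x' y' x y gx' gy' gx gy e.symm hS')
    · intro x x' n gx gx' hS hS'
      exact hS (h2 x' x n gx' gx hS')
    · intro x x' n gx gx' hS hS'
      exact hS (h3 x' x n gx' gx hS')
  union_mem := by
    rintro S ⟨h1, h2, h3⟩ T ⟨k1, k2, k3⟩
    refine ⟨?_, ?_, ?_⟩
    · rintro x y x' y' gx gy gx' gy' e (hS | hS)
      · exact Or.inl (h1 x y x' y' gx gy gx' gy' e hS)
      · exact Or.inr (k1 x y x' y' gx gy gx' gy' e hS)
    · rintro x x' n gx gx' (hS | hS)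
      · exact Or.inl (h2 x x' n gx gx' hS)
      · exact Or.inr (k2 x x' n gx gx' hS)
    · rintro x x' n gx gx' (hS | hS)
      · exact Or.inl (h3 x x' n gx gx' hS)
      · exact Or.inr (k3 x x' n gx gx' hS)
  pr1_mem := by
    rintro S ⟨h1, h2, h3⟩
    refine ⟨?_, ?_, ?_⟩
    · rintro x y x' y' gx gy gx' gy' e ⟨h0, -⟩
      exact absurd h0 (gn_ne_zero gy)
    · rintro x x' n gx gx' ⟨h0, y, hy⟩
      refine ⟨h0, ?_⟩
      by_cases gy : Gn y
      · obtain ⟨y', gy', hy'⟩ := exists_partner (x := x') ⌊x + y⌋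
        exact ⟨y', h1 x y x' y' gx gy gx' gy' (by rw [hy']) hy⟩
      · unfold Gn at gy
        push Not at gy
        obtain ⟨j, rfl⟩ := gy
        exact ⟨j, h2 x x' j gx gx' hy⟩
    · rintro y y' n gy gy' ⟨h0, -⟩
      exact absurd h0 (gn_ne_zero gy)
  pr2_mem := by
    rintro S ⟨h1, h2, h3⟩
    refine ⟨?_, ?_, ?_⟩
    · rintro x y x' y' gx gy gx' gy' e ⟨h0, -⟩
      exact absurd h0 (gn_ne_zero gx)
    · rintro x x' n gx gx' ⟨h0, -⟩
      exact absurd h0 (gn_ne_zero gx)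
    · rintro y y' n gy gy' ⟨h0, x, hx⟩
      refine ⟨h0, ?_⟩
      by_cases gx : Gn x
      · obtain ⟨x', gx', hx'⟩ := exists_partner (x := y') ⌊x + y⌋
        exact ⟨x', h1 x y x' y' gx gy gx' gy' (by rw [← hx', add_comm]) hx⟩
      · unfold Gn at gx
        push Not at gx
        obtain ⟨j, rfl⟩ := gx
        exact ⟨j, h3 y y' j gy gy' hx⟩
  tens_mem := by
    rintro A ⟨h1, h2, h3⟩ B ⟨k1, k2, k3⟩ - -
    refine ⟨?_, ?_, ?_⟩
    · rintro x y x' y' gx gy gx' gy' e ⟨hA, hB⟩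
      refine ⟨?_, ?_⟩
      · have := h2 x x' 0 gx gx' (by simpa using hA)
        simpa using this
      · have := k3 y y' 0 gy gy' (by simpa using hB)
        simpa using this
    · rintro x x' n gx gx' ⟨hA, hB⟩
      refine ⟨?_, hB⟩
      have := h2 x x' 0 gx gx' (by simpa using hA)
      simpa using this
    · rintro y y' n gy gy' ⟨hA, hB⟩
      refine ⟨hA, ?_⟩
      have := k3 y y' 0 gy gy' (by simpa using hB)
      simpa using this

theorem code_int {Z : Set ℕ} {p : Plane} (h : Code Z p) :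
    (∃ m : ℤ, p.1 = m) ∧ (∃ m : ℤ, p.2 = m) := by
  obtain ⟨n, h2, h1 | h1 | ⟨h1, -⟩⟩ := h
  · exact ⟨⟨n, by simpa using h1⟩, ⟨n, by simpa using h2⟩⟩
  · exact ⟨⟨n + 1, by simpa using h1⟩, ⟨n, by simpa using h2⟩⟩
  · exact ⟨⟨-(n + 1), by push_cast; exact h1⟩, ⟨n, by simpa using h2⟩⟩

theorem mem_gens_gn {k : ℕ} (c : ℤ → (Fin k → Bool)) (Z : Set ℕ) (i : Fin k) {x y : ℝ}
    (gx : Gn x) (gy : Gn y) : (x, y) ∈ gens c Z i ↔ c ⌊x + y⌋ i = true := by
  constructor
  · rintro (⟨-, h⟩ | ⟨-, -, h⟩)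
    · exact absurd (code_int h).1 gx
    · exact h
  · intro h; exact Or.inr ⟨gx, gy, h⟩

theorem gens_mem_Inv {k : ℕ} (c : ℤ → (Fin k → Bool)) (Z : Set ℕ) (i : Fin k) :
    gens c Z i ∈ Inv c := by
  refine ⟨?_, ?_, ?_⟩
  · intro x y x' y' gx gy gx' gy' e h
    rw [mem_gens_gn c Z i gx gy] at h
    rw [mem_gens_gn c Z i gx' gy', ← e]
    exact h
  · rintro x x' n gx gx' (⟨-, h⟩ | ⟨-, h, -⟩)
    · exact absurd (code_int h).1 gx
    · exact absurd ⟨n, rfl⟩ h
  · rintro y y' n gy gy' (⟨-, h⟩ | ⟨h, -, -⟩)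
    · exact absurd (code_int h).2 gy
    · exact absurd ⟨n, rfl⟩ h

theorem generated_subset {G : Set (Set Plane)} {F : Set (Set Plane)} (hF : IsProjAlg F)
    (h : G ⊆ F) : generated G ⊆ F := fun _ hS => hS F ⟨hF, h⟩

/-- fewer than `k` sets do not generate the algebra of `gens c Z` -/
theorem not_generated {k j : ℕ} (hj : j < k) (c : ℤ → (Fin k → Bool))
    (hc : Function.Surjective c) (Z : Set ℕ) (T : Fin j → Set Plane) :
    generated (range (gens c Z)) ≠ generated (range T) := by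
  intro heq
  have hT : ∀ i, T i ∈ Inv c := by
    intro i
    have h1 : T i ∈ generated (range T) := subset_generated _ (mem_range_self i)
    rw [← heq] at h1
    refine generated_subset (isProjAlg_Inv c) ?_ h1
    rintro _ ⟨i, rfl⟩
    exact gens_mem_Inv c Z i
  classical
  let D : (Fin k → Bool) → (Fin j → Bool) := fun a i =>
    decide (∃ x y : ℝ, Gn x ∧ Gn y ∧ c ⌊x + y⌋ = a ∧ (x, y) ∈ T i)
  have hD : ¬ Function.Injective D := by
    intro hinj
    have := Fintype.card_le_of_injective D hinj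
    simp only [Fintype.card_fun, Fintype.card_bool, Fintype.card_fin] at this
    have h2 : 2 ^ j < 2 ^ k := Nat.pow_lt_pow_right (by norm_num) hj
    omega
  unfold Function.Injective at hD
  push Not at hD
  obtain ⟨a, b, hab, hne⟩ := hD
  let h' : ℤ → (Fin k → Bool) := fun m => if c m = b then a else c m
  have hT' : ∀ i, T i ∈ Inv h' := by
    intro i
    obtain ⟨h1, h2, h3⟩ := hT i
    refine ⟨?_, h2, h3⟩
    have hDi : (∃ x y : ℝ, Gn x ∧ Gn y ∧ c ⌊x + y⌋ = a ∧ (x, y) ∈ T i) ↔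
        (∃ x y : ℝ, Gn x ∧ Gn y ∧ c ⌊x + y⌋ = b ∧ (x, y) ∈ T i) := by
      have := congrFun hab i
      simpa [D] using this
    intro x y x' y' gx gy gx' gy' e hS
    by_cases e1 : c ⌊x + y⌋ = b
    · by_cases e2 : c ⌊x' + y'⌋ = b
      · exact h1 x y x' y' gx gy gx' gy' (e1.trans e2.symm) hS
      · have e3 : c ⌊x' + y'⌋ = a := by
          simp only [h', if_pos e1, if_neg e2] at e
          exact e.symm
        obtain ⟨u, v, gu, gv, huv, hm⟩ := hDi.2 ⟨x, y, gx, gy, e1, hS⟩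
        exact h1 u v x' y' gu gv gx' gy' (huv.trans e3.symm) hm
    · by_cases e2 : c ⌊x' + y'⌋ = b
      · have e3 : c ⌊x + y⌋ = a := by
          simp only [h', if_neg e1, if_pos e2] at e
          exact e
        obtain ⟨u, v, gu, gv, huv, hm⟩ := hDi.1 ⟨x, y, gx, gy, e3, hS⟩
        exact h1 u v x' y' gu gv gx' gy' (huv.trans e2.symm) hm
      · simp only [h', if_neg e1, if_neg e2] at e
        exact h1 x y x' y' gx gy gx' gy' e hS
  obtain ⟨i, hi⟩ : ∃ i, a i ≠ b i := by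
    by_contra hcon
    push Not at hcon
    exact hne (funext hcon)
  have hgi : gens c Z i ∈ Inv h' := by
    have h1 : gens c Z i ∈ generated (range (gens c Z)) := subset_generated _ (mem_range_self i)
    rw [heq] at h1
    refine generated_subset (isProjAlg_Inv h') ?_ h1
    rintro _ ⟨i, rfl⟩
    exact hT' i
  obtain ⟨ma, hma⟩ := hc a
  obtain ⟨mb, hmb⟩ := hc b
  have gh : Gn (1 / 2 : ℝ) := by
    rintro ⟨l, hl⟩
    have h1 : (2 : ℝ) * l = 1 := by rw [← hl]; norm_num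
    have h2 : (2 : ℤ) * l = 1 := by exact_mod_cast h1
    omega
  obtain ⟨ya, gya, hya⟩ := exists_partner (x := (1 / 2 : ℝ)) ma
  obtain ⟨yb, gyb, hyb⟩ := exists_partner (x := (1 / 2 : ℝ)) mb
  have eh : h' ⌊(1 / 2 : ℝ) + ya⌋ = h' ⌊(1 / 2 : ℝ) + yb⌋ := by
    rw [hya, hyb]
    simp only [h', hma, hmb, if_true]
    split_ifs <;> rfl
  have k1 : (c ⌊(1 / 2 : ℝ) + ya⌋ i = true) ↔ (c ⌊(1 / 2 : ℝ) + yb⌋ i = true) := by
    rw [← mem_gens_gn c Z i gh gya, ← mem_gens_gn c Z i gh gyb]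
    exact ⟨hgi.1 _ _ _ _ gh gya gh gyb eh, hgi.1 _ _ _ _ gh gyb gh gya eh.symm⟩
  rw [hya, hyb, hma, hmb] at k1
  apply hi
  exact Bool.eq_iff_iff.2 k1

theorem gens_injective {k : ℕ} (c : ℤ → (Fin k → Bool))
    (hc : Function.Surjective c) (Z : Set ℕ) : Function.Injective (gens c Z) := by
  intro i j hij
  by_contra hne
  obtain ⟨m, hm⟩ := hc (fun l => decide (l = i))
  have gh : Gn (1 / 2 : ℝ) := by
    rintro ⟨l, hl⟩
    have h1 : (2 : ℝ) * l = 1 := by rw [← hl]; norm_num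
    have h2 : (2 : ℤ) * l = 1 := by exact_mod_cast h1
    omega
  obtain ⟨y, gy, hy⟩ := exists_partner (x := (1 / 2 : ℝ)) m
  have h1 : ((1 / 2 : ℝ), y) ∈ gens c Z i := by
    rw [mem_gens_gn c Z i gh gy, hy, hm]
    simp
  rw [hij, mem_gens_gn c Z j gh gy, hy, hm] at h1
  simp only [decide_eq_true_eq] at h1
  exact hne h1.symm

/-! ### Counting -/

/-- the algebra coding `Z` -/
def alg {k : ℕ} (c : ℤ → (Fin k → Bool)) (Z : Set ℕ) : ProjAlg :=
  ⟨generated (range (gens c Z)), isProjAlg_generated _⟩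

theorem fiber_countable {k : ℕ} (hk : 0 < k) (c : ℤ → (Fin k → Bool)) (Z₀ : Set ℕ) :
    Cardinal.mk {Z : Set ℕ // Isomorphic (alg c Z).1 (alg c Z₀).1} ≤ Cardinal.aleph0 := by
  have hch : ∀ Z : {Z : Set ℕ // Isomorphic (alg c Z).1 (alg c Z₀).1},
      ∃ s : Fin k → Tm k, ∀ n : ℕ, n ∈ Z.1 ↔
        (eval (fun i => eval (gens c Z₀) (s i)) (RT ⟨0, hk⟩ n)).Nonempty := by
    rintro ⟨Z, φ, a1, a2, a3, a4, a5⟩
    have hF : IsProjAlg (alg c Z).1 := (alg c Z).2
    have hg : ∀ i, gens c Z i ∈ (alg c Z).1 := fun i => subset_generated _ (mem_range_self i)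
    have hs : ∀ i, ∃ s : Tm k, eval (gens c Z₀) s = (φ ⟨gens c Z i, hg i⟩ : Set Plane) := by
      intro i
      have h1 := (φ ⟨gens c Z i, hg i⟩).2
      have h2 : (alg c Z₀).1 = range (eval (gens c Z₀)) := generated_eq _
      exact (Set.ext_iff.1 h2 _).1 h1
    choose s hs using hs
    refine ⟨s, fun n => ?_⟩
    rw [← eval_RT c Z ⟨0, hk⟩ rfl n]
    have h3 := iso_eval hF φ a1 a2 a3 a4 a5 (gens c Z) hg (RT ⟨0, hk⟩ n)
    have h4 : (fun i => (φ ⟨gens c Z i, hg i⟩ : Set Plane)) = fun i => eval (gens c Z₀) (s i) :=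
      funext fun i => (hs i).symm
    rw [h4] at h3
    change (eval (gens c Z) (RT ⟨0, hk⟩ n)).Nonempty ↔ _
    rw [← h3, Set.nonempty_iff_ne_empty, Set.nonempty_iff_ne_empty, not_iff_not]
    constructor
    · intro he
      exact iso_empty hF φ a1 a2 _ he
    · intro he
      have h5 := iso_empty hF φ a1 a2 ⟨∅, hF.empty_mem⟩ rfl
      have h6 : φ ⟨eval (gens c Z) (RT ⟨0, hk⟩ n), eval_mem _ hF hg _⟩ = φ ⟨∅, hF.empty_mem⟩ :=
        Subtype.ext (he.trans h5.symm)
      exact congrArg Subtype.val (φ.injective h6)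
  choose s hs using hch
  have hinj : Function.Injective s := by
    intro Z Z' h
    apply Subtype.ext
    ext n
    rw [hs Z n, hs Z' n, h]
  have hcount : Countable (Fin k → Tm k) := inferInstance
  exact (Cardinal.mk_le_of_injective hinj).trans (Cardinal.mk_le_aleph0)

theorem lower {k : ℕ} (hk : 0 < k) (C : Set ProjAlg) (c : ℤ → (Fin k → Bool))
    (hC : ∀ Z, alg c Z ∈ C) : Cardinal.continuum ≤ numIsoClasses C := by
  by_contra hlt
  push Not at hlt
  have h1 : Cardinal.mk (Set ℕ) ≤ numIsoClasses C * Cardinal.aleph0 := by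
    unfold numIsoClasses
    apply Cardinal.mk_le_mk_mul_of_mk_preimage_le
      (f := fun Z : Set ℕ => (⟨Quotient.mk isoSetoid (alg c Z), alg c Z, hC Z, rfl⟩ :
        ↥(Quotient.mk isoSetoid '' C)))
    rintro ⟨q, hq⟩
    by_cases hne : ∃ Z₀, Quotient.mk isoSetoid (alg c Z₀) = q
    · obtain ⟨Z₀, rfl⟩ := hne
      refine le_trans ?_ (fiber_countable hk c Z₀)
      apply Cardinal.mk_le_mk_of_subset
      intro Z hZ
      have h2 : Quotient.mk isoSetoid (alg c Z) = Quotient.mk isoSetoid (alg c Z₀) :=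
        congrArg Subtype.val hZ
      exact Quotient.exact h2
    · have : ((fun Z : Set ℕ => (⟨Quotient.mk isoSetoid (alg c Z), alg c Z, hC Z, rfl⟩ :
        ↥(Quotient.mk isoSetoid '' C))) ⁻¹' {⟨q, hq⟩}) = ∅ := by
        ext Z
        simp only [Set.mem_preimage, Set.mem_singleton_iff, Set.mem_empty_iff_false, iff_false]
        intro h
        exact hne ⟨Z, congrArg Subtype.val h⟩
      rw [this]
      simp
  have h2 : Cardinal.mk (Set ℕ) = Cardinal.continuum := by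
    rw [Cardinal.mk_set, Cardinal.mk_nat, Cardinal.two_power_aleph0]
  rw [h2] at h1
  have h3 : numIsoClasses C * Cardinal.aleph0 < Cardinal.continuum :=
    Cardinal.mul_lt_of_lt Cardinal.aleph0_le_continuum hlt Cardinal.aleph0_lt_continuum
  exact absurd h1 (not_le.2 h3)

/-- For each positive integer `k` there are exactly continuum many isomorphism classes of
projective algebras generated by `k` subsets of the plane; the same holds if the `k` subsets are
required to be distinct, and if only the algebras are counted that are not generated by fewer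
than `k` subsets. -/
theorem result (k : ℕ) (hk : 0 < k) :
    numIsoClasses (genBy k) = Cardinal.continuum ∧
    numIsoClasses (genByDistinct k) = Cardinal.continuum ∧
    numIsoClasses (genByExactly k) = Cardinal.continuum := by
  obtain ⟨c, hc⟩ : ∃ c : ℤ → (Fin k → Bool), Function.Surjective c := by
    obtain ⟨f, hf⟩ := exists_surjective_nat (Fin k → Bool)
    exact ⟨fun m => f m.toNat, fun a => by
      obtain ⟨n, hn⟩ := hf a
      exact ⟨n, by simpa using hn⟩⟩
  have mono : ∀ C D : Set ProjAlg, C ⊆ D → numIsoClasses C ≤ numIsoClasses D := fun C D h =>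
    Cardinal.mk_le_mk_of_subset (image_mono h)
  have d1 : genByDistinct k ⊆ genBy k := by
    rintro F ⟨g, -, hg⟩; exact ⟨g, hg⟩
  have d2 : genByExactly k ⊆ genBy k := fun F h => h.1
  have e1 : ∀ Z, alg c Z ∈ genByDistinct k := fun Z => ⟨gens c Z, gens_injective c hc Z, rfl⟩
  have e2 : ∀ Z, alg c Z ∈ genByExactly k := fun Z =>
    ⟨d1 (e1 Z), by
      rintro j hj ⟨T, hT⟩
      exact not_generated hj c hc Z T hT⟩
  exact ⟨le_antisymm (upper k) (lower hk _ c (fun Z => d1 (e1 Z))),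
    le_antisymm ((mono _ _ d1).trans (upper k)) (lower hk _ c e1),
    le_antisymm ((mono _ _ d2).trans (upper k)) (lower hk _ c e2)⟩

end Pool.Agent.Results.MP_71be7b_lc.ContinuumMany
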